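import Pool.Agent.H24.CL.TargetsK

/-!
# Row S2 of the board clk_modules: the step with Johnson's bound
-/

set_option autoImplicit false

open Finset MeasureTheory

namespace Pool.Agent.H49.CLK

open Pool.Agent.H24.CL

theorem zb_nonneg {k q r : ℕ} {W : ℕ → Set (X k)} {R : ℕ → ℕ} {n G : ℕ → ℝ} {B : ℝ}
    (h : Lev k q W R n G B) (hr : 1 ≤ r) (hk : 3 ≤ k) : 0 ≤ ZB k q r R n G := by
  unfold ZB
  refine mul_nonneg (Finset.prod_nonneg fun l hl => ?_) (Finset.prod_nonneg fun l hl => ?_)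
  · rw [Finset.mem_Icc] at hl
    have h1 := (h.hn l hl.1 (by omega)).1
    positivity
  · rw [Finset.mem_Icc] at hl
    have h1 := h.hG l (by omega) (by omega)
    positivity

theorem rep_bound {k : ℕ} (S : AddSubgroup (X k)) (W : Set (X k)) (F : ℝ) (hF : Cnt S W F)
    (Y : Finset (X k)) (hY : ∀ y ∈ Y, y ∈ W) :
    ∃ Y' : Finset (X k), Y' ⊆ Y ∧ (∀ y ∈ Y', ∀ y' ∈ Y', y - y' ∈ S → y = y') ∧
      (Y.card : ℝ) ≤ F * (Y'.card : ℝ) := by
  classical
  obtain ⟨π, hπ⟩ : ∃ π : X k → X k ⧸ S, ∀ a b, π a = π b ↔ a - b ∈ S := by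
    refine ⟨fun a => (a : X k ⧸ S), fun a b => ?_⟩
    rw [QuotientAddGroup.eq]
    constructor
    · intro h
      have := S.neg_mem h
      rwa [neg_add_rev, neg_neg, add_comm, add_comm, ← sub_eq_neg_add] at this
    · intro h
      have := S.neg_mem h
      rwa [neg_sub, sub_eq_neg_add] at this
  have hex : ∀ c ∈ Y.image π, ∃ y ∈ Y, π y = c := by
    intro c hc
    rw [Finset.mem_image] at hc
    exact hc
  choose! g hg using hex
  refine ⟨(Y.image π).image g, ?_, ?_, ?_⟩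
  · intro y hy
    rw [Finset.mem_image] at hy
    obtain ⟨c, hc, rfl⟩ := hy
    exact (hg c hc).1
  · intro y hy y' hy' h
    rw [Finset.mem_image] at hy hy'
    obtain ⟨c, hc, rfl⟩ := hy
    obtain ⟨c', hc', rfl⟩ := hy'
    have h1 := (hπ _ _).2 h
    rw [(hg c hc).2, (hg c' hc').2] at h1
    rw [h1]
  · have hcard : ((Y.image π).image g).card = (Y.image π).card := by
      refine Finset.card_image_of_injOn ?_
      intro c hc c' hc' h
      have h1 : π (g c) = π (g c') := by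
        show π (g c) = π (g c')
        rw [show g c = g c' from h]
      rw [(hg c hc).2, (hg c' hc').2] at h1
      exact h1
    rw [hcard]
    have h2 : (Y.card : ℝ) = ∑ c ∈ Y.image π, (((Y.filter fun x => π x = c).card : ℕ) : ℝ) := by
      rw [Finset.card_eq_sum_card_image π Y]
      push_cast
      rfl
    rw [h2]
    calc ∑ c ∈ Y.image π, (((Y.filter fun x => π x = c).card : ℕ) : ℝ)
        ≤ ∑ c ∈ Y.image π, F := by
          refine Finset.sum_le_sum fun c _ => ?_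
          refine hF _ (fun y hy => hY y (Finset.mem_filter.1 hy).1) ?_
          intro y hy y' hy'
          rw [Finset.mem_filter] at hy hy'
          exact (hπ y y').1 (by rw [hy.2, hy'.2])
      _ = F * ((Y.image π).card : ℝ) := by
          rw [Finset.sum_const, nsmul_eq_mul, mul_comm]

theorem pf_S2 (hAV : TK_AV) (hZL : TK_ZL) (hJO : TK_JO) (_hHM : TK_HM) (_hTO : T_TO) : TK_S2 := by
  classical
  intro k hk
  obtain ⟨C, c, hC, HZ⟩ := hZL k hk
  refine ⟨2 * (Nat.factorial k : ℝ) * C, c, ?_, ?_⟩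
  · have h1 : (1 : ℝ) ≤ (Nat.factorial k : ℝ) := by
      exact_mod_cast Nat.succ_le_of_lt (Nat.factorial_pos k)
    nlinarith
  · intro q W R n G B hq hkq hm0 hm1 hL hn0q hG0 hCar hCnt h2k h4
    have hqpos : (0 : ℝ) < q := by exact_mod_cast hq.pos
    have hk3 : (3 : ℝ) ≤ k := by exact_mod_cast hk
    have hn0 : 0 < n 0 := by linarith
    have hn01 : 1 ≤ n 0 := by linarith
    have hZB : 0 ≤ ZB k q 2 R n G := zb_nonneg hL (by norm_num) hk
    have hG1 : 1 ≤ G 1 := hL.hG 1 le_rfl (by omega)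
    have hcnt1 : Cnt (Ln k q) (W 1) (G 1) := hL.cnt 1 le_rfl (by omega)
    have hB : 1 ≤ B := hL.hB
    obtain ⟨F, hFd⟩ : ∃ F : ℝ, F = (Nat.factorial k : ℝ) * G 0 ^ k := ⟨_, rfl⟩
    have hF0 : 0 ≤ F := by
      rw [hFd]
      positivity
    obtain ⟨Z, hZd⟩ : ∃ Z : ℝ,
        Z = C * B ^ c * ((q : ℝ) / n 0) ^ (k - 2) * ZB k q 2 R n G := ⟨_, rfl⟩
    have hZ0 : 0 ≤ Z := by
      rw [hZd]
      positivity
    have key := hAV k q 2 hq.one_le (by omega) (W 0) (W 1) (2 * F / n 0) Z hm0 hm1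
      (by positivity) hZ0 ?_ ?_
    · refine le_trans key (le_of_eq ?_)
      have hk1 : k - 1 = (k - 2) + 1 := by omega
      rw [hZd, hk1, pow_succ, hFd]
      field_simp
    · intro a Y hY
      obtain ⟨Y', hsub, hinj, hcard⟩ := rep_bound (H k q 1) (W 0) F (by rw [hFd]; exact hCnt) Y
        (fun y hy => (hY y hy).1)
      have hJ := (hJO k q (by omega) hq hkq (W 0) (W 1) (n 0) (G 1) hn01 hG1 hcnt1 hCar h4 a).2 Y'
        (fun y hy => hY y (hsub hy)) hinj
      have h5 : (Y'.card : ℝ) ≤ 2 * (∑ b ∈ Bs k q 2 (W 0) (W 1) a, (cc k q 2 b (W 1) a : ℝ)) /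
          n 0 := by
        rw [le_div_iff₀ hn0, mul_comm]
        exact hJ
      calc (Y.card : ℝ) ≤ F * (Y'.card : ℝ) := hcard
        _ ≤ F * (2 * (∑ b ∈ Bs k q 2 (W 0) (W 1) a, (cc k q 2 b (W 1) a : ℝ)) / n 0) :=
            mul_le_mul_of_nonneg_left h5 hF0
        _ = 2 * F / n 0 * ∑ b ∈ Bs k q 2 (W 0) (W 1) a, (cc k q 2 b (W 1) a : ℝ) := by
            ring
    · intro b hb Y hYB hY1 hY2
      have h6 := HZ q W R n G B hq hkq hL 2 b (n 0) Y (by norm_num) (by omega) hb h2k ?_ hY1 hY2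
      · rw [hZd]
        exact h6
      · intro y hy
        have h7 := hYB y hy
        unfold Bs at h7
        rw [Finset.mem_filter] at h7
        obtain ⟨_, h, hh, hyh, _⟩ := h7
        obtain ⟨D, hD1, hD2, hD3⟩ := hCar (y + h) hyh
        exact ⟨D, hD1, fun b hb => ⟨h, hh, hD2 b hb⟩, hD3⟩

end Pool.Agent.H49.CLK
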